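import Mathlib

set_option autoImplicit false

/-!
# A spectrally arbitrary sign pattern with a superpattern that is not spectrally arbitrary

`S` is the direct sum of the order 4 pattern `M₄` and of the order 2 pattern `T₂`; it is
spectrally arbitrary, although `M₄` is not.  The superpattern `S'` of `S` is obtained by turning
one zero entry of `M₄` into a plus sign.  The resulting pattern of order 4 has no realization with
characteristic polynomial `X ^ 4`, hence `S'` has none with characteristic polynomial `X ^ 6`.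
-/

namespace Pool.Agent.Results.MP_557f7f_co.SpectralSuperpattern

open Polynomial Matrix

/-- `A` is a realization of the sign pattern `S`. -/
def Realizes {n : ℕ} (A : Matrix (Fin n) (Fin n) ℝ) (S : Matrix (Fin n) (Fin n) SignType) : Prop :=
  ∀ i j, SignType.sign (A i j) = S i j

/-- The sign pattern `S` is spectrally arbitrary: every monic real polynomial of degree `n` is the
characteristic polynomial of a realization of `S`. -/
def SpectrallyArbitrary {n : ℕ} (S : Matrix (Fin n) (Fin n) SignType) : Prop :=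
  ∀ p : ℝ[X], p.Monic → p.natDegree = n →
    ∃ A : Matrix (Fin n) (Fin n) ℝ, Realizes A S ∧ A.charpoly = p

/-- `S'` is a superpattern of `S`: it agrees with `S` at every nonzero entry of `S`. -/
def IsSuperpattern {n : ℕ} (S' S : Matrix (Fin n) (Fin n) SignType) : Prop :=
  ∀ i j, S i j ≠ 0 → S' i j = S i j

/-- The pattern `M₄ ⊕ T₂`. -/
def S : Matrix (Fin 6) (Fin 6) SignType :=
  !![1, 1, -1, 0, 0, 0;
     -1, -1, 1, 0, 0, 0;
     0, 0, 0, -1, 0, 0;
     1, 1, 0, 0, 0, 0;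
     0, 0, 0, 0, 1, 1;
     0, 0, 0, 0, -1, -1]

/-- The superpattern: the entry in row 3 and column 2 is turned into a plus sign. -/
def S' : Matrix (Fin 6) (Fin 6) SignType :=
  !![1, 1, -1, 0, 0, 0;
     -1, -1, 1, 0, 0, 0;
     0, 1, 0, -1, 0, 0;
     1, 1, 0, 0, 0, 0;
     0, 0, 0, 0, 1, 1;
     0, 0, 0, 0, -1, -1]

/-- The pattern `M₄`. -/
def M4 : Matrix (Fin 4) (Fin 4) SignType :=
  !![1, 1, -1, 0; -1, -1, 1, 0; 0, 0, 0, -1; 1, 1, 0, 0]

/-- The pattern `T₂`. -/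
def T2 : Matrix (Fin 2) (Fin 2) SignType := !![1, 1; -1, -1]

theorem det4 (a b c d e f g h k l x : ℝ) :
    (!![x - a, -b, c, 0; d, x + e, -f, 0; 0, -g, x, h; -k, -l, 0, x] :
      Matrix (Fin 4) (Fin 4) ℝ).det =
    x ^ 4 + (e - a) * x ^ 3 + (b * d - a * e - f * g) * x ^ 2 +
      (g * (a * f - c * d) + h * (f * l - c * k)) * x +
      h * (k * (b * f - c * e) - l * (a * f - c * d)) := by
  simp [Matrix.det_succ_row_zero, Fin.sum_univ_succ, Fin.succAbove]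
  ring

theorem charpoly4 (a b d e k l : ℝ) :
    (!![a, b, -1, 0; -d, -e, 1, 0; 0, 0, 0, -1; k, l, 0, 0] : Matrix (Fin 4) (Fin 4) ℝ).charpoly =
      X ^ 4 + C (e - a) * X ^ 3 + C (b * d - a * e) * X ^ 2 + C (l - k) * X +
        C (k * (b - e) - l * (a - d)) := by
  apply Polynomial.funext
  intro x
  rw [Matrix.eval_charpoly]
  have h1 : (Matrix.scalar (Fin 4) x - !![a, b, -1, 0; -d, -e, 1, 0; 0, 0, 0, -1; k, l, 0, 0] :
      Matrix (Fin 4) (Fin 4) ℝ) =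
      !![x - a, -b, 1, 0; d, x + e, -1, 0; 0, -0, x, 1; -k, -l, 0, x] := by
    ext i j
    fin_cases i <;> fin_cases j <;> simp [Matrix.sub_apply, Matrix.scalar_apply]
  rw [h1, det4]
  simp

theorem charpoly2 (a b c d : ℝ) :
    (!![a, b; c, d] : Matrix (Fin 2) (Fin 2) ℝ).charpoly =
      X ^ 2 - C (a + d) * X + C (a * d - b * c) := by
  rw [Matrix.charpoly_fin_two, Matrix.trace_fin_two, Matrix.det_fin_two]
  rfl

theorem realize_T2 (u v : ℝ) :
    ∃ A : Matrix (Fin 2) (Fin 2) ℝ, Realizes A T2 ∧ A.charpoly = X ^ 2 + C u * X + C v := by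
  have n1 := abs_nonneg u
  have n2 := abs_nonneg v
  have l1 := le_abs_self u
  have l2 := neg_abs_le v
  obtain ⟨d, hd⟩ : ∃ d : ℝ, d = |u| + |v| + 1 := ⟨_, rfl⟩
  obtain ⟨a, ha⟩ : ∃ a : ℝ, a = d - u := ⟨_, rfl⟩
  have hd0 : |v| + 1 ≤ d := by linarith
  have ha0 : |v| + 1 ≤ a := by linarith
  have hc : 0 < v + a * d := by nlinarith
  refine ⟨!![a, 1; -(v + a * d), -d], ?_, ?_⟩
  · intro i j
    fin_cases i <;> fin_cases j
    · exact sign_pos (by change (0 : ℝ) < a; linarith)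
    · exact sign_pos one_pos
    · exact sign_neg (neg_neg_of_pos hc)
    · exact sign_neg (by change -d < (0 : ℝ); linarith)
  · rw [charpoly2]
    have e1 : a + -d = -u := by rw [ha]; ring
    have e2 : a * -d - 1 * -(v + a * d) = v := by ring
    rw [e1, e2, C_neg]
    ring

/-- Solving for `b` and `d`. -/
theorem realize_M4_aux (c1 c2 c3 c4 a k : ℝ) (ha : 0 < a) (he : 0 < a + c1) (hk : 0 < k)
    (hl : 0 < k + c3) (hm : 0 < c2 + a * (a + c1))
    (hR : 0 < c4 + k * (a + c1) + (k + c3) * a)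
    (hF : 0 ≤ (c4 + k * (a + c1) + (k + c3) * a) ^ 2 -
      4 * k * (k + c3) * (c2 + a * (a + c1))) :
    ∃ A : Matrix (Fin 4) (Fin 4) ℝ, Realizes A M4 ∧
      A.charpoly = X ^ 4 + C c1 * X ^ 3 + C c2 * X ^ 2 + C c3 * X + C c4 := by
  obtain ⟨e, hedef⟩ : ∃ e : ℝ, e = a + c1 := ⟨_, rfl⟩
  obtain ⟨l, hldef⟩ : ∃ l : ℝ, l = k + c3 := ⟨_, rfl⟩
  obtain ⟨m, hmdef⟩ : ∃ m : ℝ, m = c2 + a * e := ⟨_, rfl⟩
  obtain ⟨R, hRdef⟩ : ∃ R : ℝ, R = c4 + k * e + l * a := ⟨_, rfl⟩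
  rw [← hedef] at he hm hR hF
  rw [← hldef] at hl hR hF
  rw [← hmdef] at hm hF
  rw [← hRdef] at hR hF
  obtain ⟨s, hsdef⟩ : ∃ s : ℝ, s = Real.sqrt (R ^ 2 - 4 * k * l * m) := ⟨_, rfl⟩
  have hs0 : 0 ≤ s := by rw [hsdef]; exact Real.sqrt_nonneg _
  have hs2 : s ^ 2 = R ^ 2 - 4 * k * l * m := by rw [hsdef]; exact Real.sq_sqrt hF
  have hklm : 0 < k * l * m := mul_pos (mul_pos hk hl) hm
  have hsR : s < R := by nlinarith
  have hb : 0 < (R + s) / (2 * k) := div_pos (by linarith) (by linarith)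
  have hd : 0 < (R - s) / (2 * l) := div_pos (by linarith) (by linarith)
  have hbd : (R + s) / (2 * k) * ((R - s) / (2 * l)) = m := by
    field_simp
    nlinarith
  have hsum : k * ((R + s) / (2 * k)) + l * ((R - s) / (2 * l)) = R := by
    field_simp
    ring
  refine ⟨!![a, (R + s) / (2 * k), -1, 0; -((R - s) / (2 * l)), -e, 1, 0; 0, 0, 0, -1;
    k, l, 0, 0], ?_, ?_⟩
  · intro i j
    fin_cases i <;> fin_cases j
    · exact sign_pos ha
    · exact sign_pos hb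
    · exact sign_neg (by norm_num)
    · exact sign_zero
    · exact sign_neg (neg_neg_of_pos hd)
    · exact sign_neg (neg_neg_of_pos he)
    · exact sign_pos one_pos
    · exact sign_zero
    · exact sign_zero
    · exact sign_zero
    · exact sign_zero
    · exact sign_neg (by norm_num)
    · exact sign_pos hk
    · exact sign_pos hl
    · exact sign_zero
    · exact sign_zero
  · rw [charpoly4]
    have e1 : e - a = c1 := by linarith
    have e2 : (R + s) / (2 * k) * ((R - s) / (2 * l)) - a * e = c2 := by linarith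
    have e3 : l - k = c3 := by linarith
    have e4 : k * ((R + s) / (2 * k) - e) - l * (a - (R - s) / (2 * l)) = c4 := by
      linarith
    rw [e1, e2, e3, e4]

theorem realize_M4 (c1 c2 c3 c4 : ℝ) (h : 0 < c4 ∨ (c4 = 0 ∧ 4 * c2 ≤ c1 ^ 2)) :
    ∃ A : Matrix (Fin 4) (Fin 4) ℝ, Realizes A M4 ∧
      A.charpoly = X ^ 4 + C c1 * X ^ 3 + C c2 * X ^ 2 + C c3 * X + C c4 := by
  have n1 := abs_nonneg c1
  have n2 := abs_nonneg c2
  have n3 := abs_nonneg c3
  have l1 := le_abs_self c1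
  have l1' := neg_abs_le c1
  have l2 := le_abs_self c2
  have l2' := neg_abs_le c2
  have l3 := le_abs_self c3
  have l3' := neg_abs_le c3
  rcases h with h | ⟨h4, h⟩
  · -- `c4 > 0`
    obtain ⟨k, hk⟩ : ∃ k : ℝ, k = |c3| + 1 := ⟨_, rfl⟩
    obtain ⟨l, hl⟩ : ∃ l : ℝ, l = k + c3 := ⟨_, rfl⟩
    have hk0 : 0 < k := by linarith
    have hl0 : 0 < l := by linarith
    have hq : 0 ≤ 2 * l * |c2| / c4 := by positivity
    obtain ⟨e, he⟩ : ∃ e : ℝ, e = |c1| + |c2| + 1 + 2 * l * |c2| / c4 := ⟨_, rfl⟩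
    obtain ⟨a, ha⟩ : ∃ a : ℝ, a = e - c1 := ⟨_, rfl⟩
    have he0 : |c2| + 1 ≤ e := by linarith
    have ha0 : |c2| + 1 ≤ a := by linarith
    have hce : 2 * l * |c2| ≤ c4 * e := by
      have h5 : c4 * (2 * l * |c2| / c4) = 2 * l * |c2| := by field_simp
      nlinarith
    have hae : a + c1 = e := by rw [ha]; ring
    have ha1 : 0 < a := by linarith
    have he1 : 0 < e := by linarith
    have hprod : (|c2| + 1) * (|c2| + 1) ≤ a * e :=
      mul_le_mul ha0 he0 (by linarith) (by linarith)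
    have hm : 0 < c2 + a * e := by nlinarith
    have hke : 0 < k * e := mul_pos hk0 he1
    have hla : 0 < l * a := mul_pos hl0 ha1
    refine realize_M4_aux c1 c2 c3 c4 a k ha1 (by rw [hae]; exact he1) hk0 (by rw [← hl]; exact hl0)
      (by rw [hae]; exact hm) (by rw [hae, ← hl]; linarith) ?_
    rw [hae, ← hl]
    have key : (c4 + k * e + l * a) ^ 2 - 4 * k * l * (c2 + a * e) =
        (k * e - l * a) ^ 2 + 2 * k * (c4 * e - 2 * l * |c2|) + 2 * c4 * (l * a) + c4 ^ 2 +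
          4 * (k * l) * (|c2| - c2) := by ring
    rw [key]
    have t1 : 0 ≤ 2 * k * (c4 * e - 2 * l * |c2|) :=
      mul_nonneg (by linarith) (by linarith)
    have t2 : 0 ≤ 2 * c4 * (l * a) := mul_nonneg (by linarith) hla.le
    have t3 : 0 ≤ 4 * (k * l) * (|c2| - c2) :=
      mul_nonneg (mul_nonneg (by norm_num) (mul_pos hk0 hl0).le) (by linarith)
    positivity
  · subst h4
    rcases eq_or_ne c3 0 with h3 | h3
    · subst h3
      obtain ⟨e, he⟩ : ∃ e : ℝ, e = |c1| + |c2| + 1 := ⟨_, rfl⟩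
      obtain ⟨a, ha⟩ : ∃ a : ℝ, a = e - c1 := ⟨_, rfl⟩
      have he0 : |c2| + 1 ≤ e := by linarith
      have ha0 : |c2| + 1 ≤ a := by linarith
      have hae : a + c1 = e := by rw [ha]; ring
      have ha1 : 0 < a := by linarith
      have he1 : 0 < e := by linarith
      have hprod : (|c2| + 1) * (|c2| + 1) ≤ a * e :=
        mul_le_mul ha0 he0 (by linarith) (by linarith)
      have hm : 0 < c2 + a * e := by nlinarith
      refine realize_M4_aux c1 c2 0 0 a 1 ha1 (by rw [hae]; exact he1) one_pos (by norm_num)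
        (by rw [hae]; exact hm) (by rw [hae]; linarith) ?_
      rw [hae, ha]
      nlinarith
    · obtain ⟨k, hk⟩ : ∃ k : ℝ, k = |c3| + 1 := ⟨_, rfl⟩
      obtain ⟨l, hl⟩ : ∃ l : ℝ, l = k + c3 := ⟨_, rfl⟩
      have hk0 : 0 < k := by linarith
      have hl0 : 0 < l := by linarith
      have h3' : 0 < |c3| := abs_pos.2 h3
      obtain ⟨w, hw⟩ : ∃ w : ℝ, w = k * |c1| + 4 * (k * l) * |c2| + 1 := ⟨_, rfl⟩
      have hkl : 0 < k * l := mul_pos hk0 hl0
      have hw0 : 0 < w := by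
        rw [hw]
        have := mul_nonneg hk0.le n1
        have := mul_nonneg hkl.le n2
        linarith
      obtain ⟨a, ha⟩ : ∃ a : ℝ, a = |c1| + |c2| + 1 + w / |c3| := ⟨_, rfl⟩
      obtain ⟨e, he⟩ : ∃ e : ℝ, e = a + c1 := ⟨_, rfl⟩
      have hq : 0 < w / |c3| := div_pos hw0 h3'
      have ha0 : |c2| + 1 ≤ a := by linarith
      have he0 : |c2| + 1 ≤ e := by linarith
      have ha1 : 0 < a := by linarith
      have he1 : 0 < e := by linarith
      have hprod : (|c2| + 1) * (|c2| + 1) ≤ a * e :=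
        mul_le_mul ha0 he0 (by linarith) (by linarith)
      have hm : 0 < c2 + a * e := by nlinarith
      have hke : 0 < k * e := mul_pos hk0 he1
      have hla : 0 < l * a := mul_pos hl0 ha1
      refine realize_M4_aux c1 c2 c3 0 a k ha1 (by rw [← he]; exact he1) hk0
        (by rw [← hl]; exact hl0) (by rw [← he]; exact hm)
        (by rw [← he, ← hl]; linarith) ?_
      rw [← he, ← hl]
      have key : (0 + k * e + l * a) ^ 2 - 4 * k * l * (c2 + a * e) =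
          (k * c1 - c3 * a) ^ 2 - 4 * (k * l) * c2 := by
        rw [he, hl]; ring
      rw [key]
      have h5 : w ≤ |c3| * a := by
        have h6 : |c3| * (w / |c3|) = w := by field_simp
        have h7 : 0 ≤ |c3| * (|c1| + |c2| + 1) := by positivity
        rw [ha]
        nlinarith
      have h8 : 4 * (k * l) * |c2| + 1 ≤ |k * c1 - c3 * a| := by
        have h9 : |c3 * a| - |k * c1| ≤ |k * c1 - c3 * a| := by
          rw [abs_sub_comm]
          exact abs_sub_abs_le_abs_sub _ _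
        rw [abs_mul, abs_mul, abs_of_pos ha1, abs_of_pos hk0] at h9
        linarith
      have h10 : 0 ≤ 4 * (k * l) * |c2| := by positivity
      have h11 : (4 * (k * l) * |c2| + 1) * (4 * (k * l) * |c2| + 1) ≤
          |k * c1 - c3 * a| * |k * c1 - c3 * a| :=
        mul_le_mul h8 h8 (by linarith) (by linarith)
      rw [abs_mul_abs_self] at h11
      have h12 : 4 * (k * l) * c2 ≤ 4 * (k * l) * |c2| :=
        mul_le_mul_of_nonneg_left l2 (by positivity)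
      nlinarith

/-- Product of two quadratics, when the pair is good. -/
theorem realize_M4_pair (u v u' v' : ℝ) (h : (0 < v ∧ 0 < v') ∨ (v ≤ 0 ∧ v' ≤ 0)) :
    ∃ A : Matrix (Fin 4) (Fin 4) ℝ, Realizes A M4 ∧
      A.charpoly = (X ^ 2 + C u * X + C v) * (X ^ 2 + C u' * X + C v') := by
  have hp : 0 ≤ v * v' := by
    rcases h with h | h
    · exact (mul_pos h.1 h.2).le
    · exact mul_nonneg_of_nonpos_of_nonpos h.1 h.2
  obtain ⟨A, hA1, hA2⟩ := realize_M4 (u + u') (v + v' + u * u') (u * v' + u' * v) (v * v') (by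
    rcases hp.lt_or_eq with h1 | h1
    · exact Or.inl h1
    · refine Or.inr ⟨h1.symm, ?_⟩
      rcases h with h | h
      · exact absurd h1 (mul_pos h.1 h.2).ne
      · nlinarith [sq_nonneg (u - u'), h.1, h.2])
  refine ⟨A, hA1, ?_⟩
  rw [hA2]
  simp only [C_add, C_mul]
  ring

theorem realize_sum (A : Matrix (Fin 4) (Fin 4) ℝ) (B : Matrix (Fin 2) (Fin 2) ℝ)
    (hA : Realizes A M4) (hB : Realizes B T2) :
    ∃ D : Matrix (Fin 6) (Fin 6) ℝ, Realizes D S ∧ D.charpoly = A.charpoly * B.charpoly := by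
  let e : Fin 4 ⊕ Fin 2 ≃ Fin 6 := finSumFinEquiv
  refine ⟨Matrix.reindex e e (Matrix.fromBlocks A 0 0 B), ?_, ?_⟩
  · intro i j
    obtain ⟨i, rfl⟩ := e.surjective i
    obtain ⟨j, rfl⟩ := e.surjective j
    rw [Matrix.reindex_apply, Matrix.submatrix_apply, Equiv.symm_apply_apply,
      Equiv.symm_apply_apply]
    rcases i with i | i <;> rcases j with j | j
    · rw [Matrix.fromBlocks_apply₁₁, hA i j]
      fin_cases i <;> fin_cases j <;> rfl
    · rw [Matrix.fromBlocks_apply₁₂, Matrix.zero_apply, sign_zero]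
      fin_cases i <;> fin_cases j <;> rfl
    · rw [Matrix.fromBlocks_apply₂₁, Matrix.zero_apply, sign_zero]
      fin_cases i <;> fin_cases j <;> rfl
    · rw [Matrix.fromBlocks_apply₂₂, hB i j]
      fin_cases i <;> fin_cases j <;> rfl
  · rw [Matrix.charpoly_reindex, Matrix.charpoly_fromBlocks_zero₁₂]

theorem S_arbitrary : SpectrallyArbitrary S := by
  intro p hp hd
  have h0 : IsMonicOfDegree p (4 + 2) := ⟨hd, hp⟩
  obtain ⟨q1, r1, hq1, hr1, rfl⟩ := h0.eq_isMonicOfDegree_two_mul_isMonicOfDegree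
  obtain ⟨q2, q3, hq2, hq3, rfl⟩ :=
    IsMonicOfDegree.eq_isMonicOfDegree_two_mul_isMonicOfDegree (n := 2) hr1
  obtain ⟨u1, v1, rfl⟩ := isMonicOfDegree_two_iff.1 hq1
  obtain ⟨u2, v2, rfl⟩ := isMonicOfDegree_two_iff.1 hq2
  obtain ⟨u3, v3, rfl⟩ := isMonicOfDegree_two_iff.1 hq3
  have fin : ∀ u v u' v' u'' v'' : ℝ, ((0 < v ∧ 0 < v') ∨ (v ≤ 0 ∧ v' ≤ 0)) →
      ∃ D : Matrix (Fin 6) (Fin 6) ℝ, Realizes D S ∧ D.charpoly =
        (X ^ 2 + C u * X + C v) * (X ^ 2 + C u' * X + C v') * (X ^ 2 + C u'' * X + C v'') := by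
    intro u v u' v' u'' v'' h
    obtain ⟨A, hA1, hA2⟩ := realize_M4_pair u v u' v' h
    obtain ⟨B, hB1, hB2⟩ := realize_T2 u'' v''
    obtain ⟨D, hD1, hD2⟩ := realize_sum A B hA1 hB1
    exact ⟨D, hD1, by rw [hD2, hA2, hB2]⟩
  rcases lt_or_ge 0 v1 with h1 | h1 <;> rcases lt_or_ge 0 v2 with h2 | h2 <;>
    rcases lt_or_ge 0 v3 with h3 | h3
  · obtain ⟨D, hD, hD'⟩ := fin u1 v1 u2 v2 u3 v3 (Or.inl ⟨h1, h2⟩)
    exact ⟨D, hD, by rw [hD']; ring⟩
  · obtain ⟨D, hD, hD'⟩ := fin u1 v1 u2 v2 u3 v3 (Or.inl ⟨h1, h2⟩)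
    exact ⟨D, hD, by rw [hD']; ring⟩
  · obtain ⟨D, hD, hD'⟩ := fin u1 v1 u3 v3 u2 v2 (Or.inl ⟨h1, h3⟩)
    exact ⟨D, hD, by rw [hD']; ring⟩
  · obtain ⟨D, hD, hD'⟩ := fin u2 v2 u3 v3 u1 v1 (Or.inr ⟨h2, h3⟩)
    exact ⟨D, hD, by rw [hD']; ring⟩
  · obtain ⟨D, hD, hD'⟩ := fin u2 v2 u3 v3 u1 v1 (Or.inl ⟨h2, h3⟩)
    exact ⟨D, hD, by rw [hD']; ring⟩
  · obtain ⟨D, hD, hD'⟩ := fin u1 v1 u3 v3 u2 v2 (Or.inr ⟨h1, h3⟩)
    exact ⟨D, hD, by rw [hD']; ring⟩
  · obtain ⟨D, hD, hD'⟩ := fin u1 v1 u2 v2 u3 v3 (Or.inr ⟨h1, h2⟩)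
    exact ⟨D, hD, by rw [hD']; ring⟩
  · obtain ⟨D, hD, hD'⟩ := fin u1 v1 u2 v2 u3 v3 (Or.inr ⟨h1, h2⟩)
    exact ⟨D, hD, by rw [hD']; ring⟩

theorem agree : ∀ i j, S i j = 0 ∨ S' i j = S i j := by decide

theorem isSuperpattern : IsSuperpattern S' S := fun i j h => (agree i j).resolve_left h

theorem det6 (a b c d e f g h k l p q r s x : ℝ) :
    (!![x - a, -b, -c, 0, 0, 0; -d, x - e, -f, 0, 0, 0; 0, -g, x, -h, 0, 0;
      -k, -l, 0, x, 0, 0; 0, 0, 0, 0, x - p, -q; 0, 0, 0, 0, -r, x - s] :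
      Matrix (Fin 6) (Fin 6) ℝ).det =
    (x ^ 4 + (-e - a) * x ^ 3 + (a * e - b * d - f * g) * x ^ 2 +
      (g * (a * f - c * d) - h * (f * l + c * k)) * x +
      h * (c * e * k + a * f * l - b * f * k - c * d * l)) *
    ((x - p) * (x - s) - q * r) := by
  simp [Matrix.det_succ_row_zero, Fin.sum_univ_succ, Fin.succAbove]
  ring

theorem eval_charpoly_S' (A : Matrix (Fin 6) (Fin 6) ℝ) (hA : Realizes A S') (x : ℝ) :
    A.charpoly.eval x =
    (x ^ 4 + (-A 1 1 - A 0 0) * x ^ 3 + (A 0 0 * A 1 1 - A 0 1 * A 1 0 - A 1 2 * A 2 1) * x ^ 2 +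
      (A 2 1 * (A 0 0 * A 1 2 - A 0 2 * A 1 0) - A 2 3 * (A 1 2 * A 3 1 + A 0 2 * A 3 0)) * x +
      A 2 3 * (A 0 2 * A 1 1 * A 3 0 + A 0 0 * A 1 2 * A 3 1 - A 0 1 * A 1 2 * A 3 0 -
        A 0 2 * A 1 0 * A 3 1)) *
    ((x - A 4 4) * (x - A 5 5) - A 4 5 * A 5 4) := by
  rw [Matrix.eval_charpoly, ← det6]
  congr 1
  have z : ∀ i j, S' i j = 0 → A i j = 0 := fun i j h => sign_eq_zero_iff.1 ((hA i j).trans h)
  ext i j
  rw [Matrix.sub_apply, Matrix.scalar_apply, Matrix.diagonal_apply]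
  fin_cases i <;> fin_cases j <;> first
    | rfl
    | (simp; exact z _ _ rfl)
    | simp

/-- If a monic quartic times a monic quadratic is `X ^ 6`, the quartic is `X ^ 4`. -/
theorem quartic_of_mul (c1 c2 c3 c4 d1 d2 : ℝ)
    (h : ∀ x : ℝ, (x ^ 4 + c1 * x ^ 3 + c2 * x ^ 2 + c3 * x + c4) * (x ^ 2 + d1 * x + d2) =
      x ^ 6) : c1 = 0 ∧ c2 = 0 ∧ c3 = 0 ∧ c4 = 0 := by
  have hP : (X ^ 4 + C c1 * X ^ 3 + C c2 * X ^ 2 + C c3 * X + C c4 : ℝ[X]) *
      (X ^ 2 + C d1 * X + C d2) = X ^ 6 := by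
    apply Polynomial.funext
    intro x
    simpa using h x
  have hdvd : (X ^ 4 + C c1 * X ^ 3 + C c2 * X ^ 2 + C c3 * X + C c4 : ℝ[X]) ∣ X ^ 6 :=
    ⟨_, hP.symm⟩
  have hmon : (X ^ 4 + C c1 * X ^ 3 + C c2 * X ^ 2 + C c3 * X + C c4 : ℝ[X]).Monic := by
    monicity!
  have hdeg : (X ^ 4 + C c1 * X ^ 3 + C c2 * X ^ 2 + C c3 * X + C c4 : ℝ[X]).natDegree = 4 := by
    compute_degree!
  obtain ⟨i, -, hi⟩ := (dvd_prime_pow prime_X 6).1 hdvd
  have heq := eq_of_monic_of_associated hmon (monic_X_pow i) hi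
  have hi4 : i = 4 := by
    rw [heq, natDegree_X_pow] at hdeg
    exact hdeg
  subst hi4
  have e0 := congrArg (fun P : ℝ[X] => P.eval 0) heq
  have e1 := congrArg (fun P : ℝ[X] => P.eval 1) heq
  have e2 := congrArg (fun P : ℝ[X] => P.eval (-1)) heq
  have e3 := congrArg (fun P : ℝ[X] => P.eval 2) heq
  simp at e0 e1 e2 e3
  refine ⟨?_, ?_, ?_, ?_⟩ <;> linarith

theorem not_nilpotent (A : Matrix (Fin 6) (Fin 6) ℝ) (hA : Realizes A S') :
    A.charpoly ≠ X ^ 6 := by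
  intro hc
  have h1 : ∀ x : ℝ, A.charpoly.eval x = x ^ 6 := by
    intro x; rw [hc]; simp
  obtain ⟨e1, e2, e3, e4⟩ := quartic_of_mul (-A 1 1 - A 0 0)
    (A 0 0 * A 1 1 - A 0 1 * A 1 0 - A 1 2 * A 2 1)
    (A 2 1 * (A 0 0 * A 1 2 - A 0 2 * A 1 0) - A 2 3 * (A 1 2 * A 3 1 + A 0 2 * A 3 0))
    (A 2 3 * (A 0 2 * A 1 1 * A 3 0 + A 0 0 * A 1 2 * A 3 1 - A 0 1 * A 1 2 * A 3 0 -
        A 0 2 * A 1 0 * A 3 1)) (-A 4 4 - A 5 5) (A 4 4 * A 5 5 - A 4 5 * A 5 4) (by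
      intro x
      rw [← h1 x, eval_charpoly_S' A hA x]
      ring)
  have p00 : 0 < A 0 0 := sign_eq_one_iff.1 (hA 0 0)
  have p01 : 0 < A 0 1 := sign_eq_one_iff.1 (hA 0 1)
  have p02 : A 0 2 < 0 := sign_eq_neg_one_iff.1 (hA 0 2)
  have p10 : A 1 0 < 0 := sign_eq_neg_one_iff.1 (hA 1 0)
  have p12 : 0 < A 1 2 := sign_eq_one_iff.1 (hA 1 2)
  have p21 : 0 < A 2 1 := sign_eq_one_iff.1 (hA 2 1)
  have p23 : A 2 3 < 0 := sign_eq_neg_one_iff.1 (hA 2 3)
  have p30 : 0 < A 3 0 := sign_eq_one_iff.1 (hA 3 0)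
  have p31 : 0 < A 3 1 := sign_eq_one_iff.1 (hA 3 1)
  obtain ⟨a, ha⟩ : ∃ a : ℝ, a = A 0 0 := ⟨_, rfl⟩
  obtain ⟨b, hb⟩ : ∃ b : ℝ, b = A 0 1 := ⟨_, rfl⟩
  obtain ⟨c, hcc⟩ : ∃ c : ℝ, c = -A 0 2 := ⟨_, rfl⟩
  obtain ⟨d, hd⟩ : ∃ d : ℝ, d = -A 1 0 := ⟨_, rfl⟩
  obtain ⟨f, hf⟩ : ∃ f : ℝ, f = A 1 2 := ⟨_, rfl⟩
  obtain ⟨g, hg⟩ : ∃ g : ℝ, g = A 2 1 := ⟨_, rfl⟩
  obtain ⟨h, hh⟩ : ∃ h : ℝ, h = -A 2 3 := ⟨_, rfl⟩
  obtain ⟨k, hk⟩ : ∃ k : ℝ, k = A 3 0 := ⟨_, rfl⟩
  obtain ⟨l, hl⟩ : ∃ l : ℝ, l = A 3 1 := ⟨_, rfl⟩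
  have q02 : A 0 2 = -c := by linarith
  have q10 : A 1 0 = -d := by linarith
  have q23 : A 2 3 = -h := by linarith
  have q11 : A 1 1 = -a := by linarith
  rw [q11, q10, ← ha, ← hb, ← hf, ← hg] at e2
  rw [q02, q10, q23, ← ha, ← hf, ← hg, ← hk, ← hl] at e3
  rw [q02, q10, q23, q11, ← ha, ← hb, ← hf, ← hk, ← hl] at e4
  rw [← ha] at p00
  rw [← hb] at p01
  rw [q02] at p02
  rw [q10] at p10
  rw [← hf] at p12
  rw [← hg] at p21
  rw [q23] at p23
  rw [← hk] at p30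
  rw [← hl] at p31
  have hc0 : 0 < c := by linarith
  have hd0 : 0 < d := by linarith
  have hh0 : 0 < h := by linarith
  clear ha hb hcc hd hf hg hh hk hl q02 q10 q23 q11 p02 p10 p23 h1 hc
  -- `u = c d - a f`
  have E2 : b * d = a * a + f * g := by linarith
  have E4 : k * (a * c - b * f) = l * (c * d - a * f) := by
    have : h * (k * (a * c - b * f) - l * (c * d - a * f)) = 0 := by linarith
    rcases mul_eq_zero.1 this with h5 | h5
    · exact absurd h5 hh0.ne'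
    · linarith
  have E3 : g * (c * d - a * f) = h * (f * l - c * k) := by linarith
  have E5 : (c * d - a * f) * (a * k - l * d) = k * (f ^ 2 * g) := by
    have : d * (k * (a * c - b * f)) = d * (l * (c * d - a * f)) := by rw [E4]
    linear_combination this + (k * f) * E2
  have hpos : 0 < k * (f ^ 2 * g) := by positivity
  rw [← E5] at hpos
  rcases pos_and_pos_or_neg_and_neg_of_mul_pos hpos with ⟨hu, hv⟩ | ⟨hu, hv⟩
  · have h6 : 0 < f * l - c * k := by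
      have : 0 < h * (f * l - c * k) := by rw [← E3]; exact mul_pos p21 hu
      exact (pos_iff_pos_of_mul_pos this).1 hh0
    nlinarith [mul_pos hv p12, mul_pos h6 hd0, mul_pos p30 hu]
  · have h6 : f * l - c * k < 0 := by
      have : h * (f * l - c * k) < 0 := by rw [← E3]; exact mul_neg_of_pos_of_neg p21 hu
      by_contra hcon
      exact absurd this (not_lt.2 (mul_nonneg hh0.le (not_lt.1 hcon)))
    nlinarith [mul_neg_of_neg_of_pos hv p12, mul_neg_of_neg_of_pos h6 hd0,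
      mul_neg_of_pos_of_neg p30 hu]

/-- The sign pattern `S = M₄ ⊕ T₂` is spectrally arbitrary, `S'` is a superpattern of `S`, and
`S'` is not spectrally arbitrary: it does not even have a nilpotent realization. -/
theorem result : SpectrallyArbitrary S ∧ IsSuperpattern S' S ∧ ¬ SpectrallyArbitrary S' ∧
    ∀ A : Matrix (Fin 6) (Fin 6) ℝ, Realizes A S' → A.charpoly ≠ X ^ 6 := by
  refine ⟨S_arbitrary, isSuperpattern, ?_, not_nilpotent⟩
  intro h
  obtain ⟨A, hA, hA'⟩ := h (X ^ 6) (monic_X_pow 6) (natDegree_X_pow 6)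
  exact not_nilpotent A hA hA'

end Pool.Agent.Results.MP_557f7f_co.SpectralSuperpattern
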